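import Pool.Agent.LibGMC.Alg

/-! Sign conditions for effective classes. -/

namespace Pool.Agent.LibGMC

open Pool.Agent.LibGMM

variable {K : Type} [Field K] [Algebra ℂ K] {J : Type} [Fintype J]

/-- If `z * ∏ t_j ^ (- a j)` for all choices of sections `t_j`, where `a j ≤ 0` for `j ∈ S`, then it
is algebraic over the field generated by the quotients of sections of `G j`, `j ∉ S`. -/
theorem alg_of_eff (X : NormalModel K) (G : J → Finset Kˣ) (hG : ∀ j, X.BPF (G j)) (S : Set J)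
    (a : J → ℤ) (z : Kˣ) (hz : ∀ Q, X.IsPrimeDiv Q → 0 ≤ Q.ord (z : K) + ∑ j, a j * sysZ Q (G j))
    (hS : ∀ j ∈ S, a j ≤ 0) (t : J → Kˣ) (ht : ∀ j, t j ∈ G j) :
    IsAlgebraic (ratioField G S) ((z * ∏ j, t j ^ (- a j) : Kˣ) : K) := by
  classical
  refine isAlgebraic_of_forall_val _ _ fun V hV => ?_
  have hVc : ∀ c : ℂ, algebraMap ℂ K c ∈ V := fun c => hV _ ((ratioField G S).algebraMap_mem c)
  obtain ⟨i, hi⟩ := X.exists_index V
  obtain ⟨p, -, hp⟩ := X.exists_pt_le V hVc i hi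
  choose h hh hgen using fun j => hG j p
  -- the local generator
  have h1 : ((z * ∏ j, h j ^ (- a j) : Kˣ) : K) ∈ X.loc p := by
    refine X.mem_loc p _ fun Q hQ hQp => ?_
    have h2 : ∀ j, sysZ Q (G j) = - Q.ord (h j : K) := by
      intro j
      have h3 := sys_eq Q (G j) (h j) (hh j) fun g' hg' => hQp _ (hgen j g' hg')
      rw [← sysZ_cast Q (G j) ⟨h j, hh j⟩] at h3
      exact_mod_cast h3
    rw [Units.val_mul, Q.ord_mul _ _ (Units.ne_zero _) (Units.ne_zero _), ord_prod_zpow'']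
    have h4 := hz Q hQ
    have h5 : ∑ j, a j * sysZ Q (G j) = ∑ j, Q.ord (h j : K) * (- a j) :=
      Finset.sum_congr rfl fun j _ => by rw [h2 j]; ring
    rwa [h5] at h4
  have h2 := hp _ h1
  -- the change of sections
  have h3 : ∀ j, (((h j / t j : Kˣ) ^ (a j) : Kˣ) : K) ∈ V := by
    intro j
    by_cases hj : j ∈ S
    · have h4 : (((t j : Kˣ) : K) / h j) ∈ V := hp _ (hgen j _ (ht j))
      have h5 : (((h j / t j : Kˣ) ^ (a j) : Kˣ) : K) = ((t j : K) / h j) ^ (- a j).toNat := by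
        have h6 : a j = - (((- a j).toNat : ℕ) : ℤ) := by
          have := hS j hj
          omega
        conv_lhs => rw [h6]
        rw [zpow_neg, zpow_natCast, ← inv_pow, inv_div, Units.val_pow_eq_pow_val,
          Units.val_div_eq_div_val]
      rw [h5]
      exact pow_mem h4 _
    · have h4 : ((h j / t j : Kˣ) : K) ∈ ratioField G S := by
        rw [Units.val_div_eq_div_val]
        exact IntermediateField.subset_adjoin _ _ ⟨j, hj, h j, hh j, t j, ht j, rfl⟩
      rw [Units.val_zpow_eq_zpow_val]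
      exact hV _ (zpow_mem h4 _)
  have h4 : ((z * ∏ j, t j ^ (- a j) : Kˣ) : K) =
      ((z * ∏ j, h j ^ (- a j) : Kˣ) : K) * ∏ j, (((h j / t j : Kˣ) ^ (a j) : Kˣ) : K) := by
    rw [← Units.coe_prod, ← Units.val_mul]
    congr 1
    rw [mul_assoc, ← Finset.prod_mul_distrib]
    congr 1
    refine Finset.prod_congr rfl fun j _ => ?_
    rw [div_zpow, zpow_neg, zpow_neg, mul_div_assoc', inv_mul_cancel, one_div]
  rw [h4]
  exact mul_mem h2 (prod_mem fun j _ => h3 j)

/-- An effective class cannot be `≤ 0` on `S` and negative at an `l ∈ S` for which `G l` moves. -/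
theorem not_eff (X : NormalModel K) (G : J → Finset Kˣ) (hG : ∀ j, X.BPF (G j)) (S : Set J)
    (a : J → ℤ) (ha : a ∈ EffZ X G) (hS : ∀ j ∈ S, a j ≤ 0) (l : J) (hl : l ∈ S)
    (hm : Moves G S l) : 0 ≤ a l := by
  classical
  by_contra hneg
  push Not at hneg
  obtain ⟨z, hz⟩ := ha
  obtain ⟨g, hg, h, hh, htr⟩ := hm
  choose t₀ ht₀ using fun j => bpf_nonempty X _ (hG j)
  have key := fun t ht => alg_of_eff X G hG S a z hz hS t ht
  have h1 := key (Function.update t₀ l g) (by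
    intro j
    by_cases hj : j = l
    · subst hj; simpa using hg
    · simpa [hj] using ht₀ j)
  have h2 := key (Function.update t₀ l h) (by
    intro j
    by_cases hj : j = l
    · subst hj; simpa using hh
    · simpa [hj] using ht₀ j)
  have h3 : ∀ u : Kˣ, (z * ∏ j, (Function.update t₀ l u j) ^ (- a j) : Kˣ) =
      (z * ∏ j ∈ Finset.univ.erase l, t₀ j ^ (- a j)) * u ^ (- a l) := by
    intro u
    rw [← Finset.mul_prod_erase Finset.univ (fun j => (Function.update t₀ l u j) ^ (- a j))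
      (Finset.mem_univ l), Function.update_self]
    have : ∏ j ∈ Finset.univ.erase l, (Function.update t₀ l u j) ^ (- a j) =
        ∏ j ∈ Finset.univ.erase l, t₀ j ^ (- a j) :=
      Finset.prod_congr rfl fun j hj => by
        rw [Function.update_of_ne (Finset.mem_erase.1 hj).1]
    rw [this]
    rw [mul_comm (u ^ (- a l)), mul_assoc]
  rw [h3 g] at h1
  rw [h3 h] at h2
  have h4 := h1.mul h2.inv
  have h5 : (((z * ∏ j ∈ Finset.univ.erase l, t₀ j ^ (- a j)) * g ^ (- a l) : Kˣ) : K) *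
      (((z * ∏ j ∈ Finset.univ.erase l, t₀ j ^ (- a j)) * h ^ (- a l) : Kˣ) : K)⁻¹ =
      ((g : K) / h) ^ (- a l).toNat := by
    have h6 : (- a l) = (((- a l).toNat : ℕ) : ℤ) := by omega
    rw [Units.val_mul, Units.val_mul _ (h ^ (- a l)), mul_inv]
    set c : K := ((z * ∏ j ∈ Finset.univ.erase l, t₀ j ^ (- a j) : Kˣ) : K) with hc
    have hc0 : c ≠ 0 := Units.ne_zero _
    rw [Units.val_zpow_eq_zpow_val, Units.val_zpow_eq_zpow_val]
    have h7 : c * (g : K) ^ (- a l) * (c⁻¹ * ((h : K) ^ (- a l))⁻¹) =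
        (g : K) ^ (- a l) * ((h : K) ^ (- a l))⁻¹ := by
      rw [mul_comm c, mul_assoc, ← mul_assoc c, mul_inv_cancel₀ hc0, one_mul]
    rw [h7, ← div_eq_mul_inv, ← div_zpow, ← zpow_natCast, ← h6]
  rw [h5] at h4
  have h8 : 0 < (- a l).toNat := by omega
  exact htr (h4.of_pow h8)

/-- Real version. -/
theorem effR_pos (X : NormalModel K) (G : J → Finset Kˣ) (hG : ∀ j, X.BPF (G j)) (S : Set J)
    (b : J → ℝ) (hb : b ∈ EffR X G) (hS : ∀ j ∈ S, b j ≤ 0) (l : J) (hl : l ∈ S)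
    (hm : Moves G S l) : 0 ≤ b l := by
  obtain ⟨N, c, a, hc, ha, hSa, hba⟩ := decomp X G hG S b hb hS
  rw [hba l]
  refine Finset.sum_nonneg fun n _ => mul_nonneg (hc n).le ?_
  exact_mod_cast not_eff X G hG S (a n) (ha n) (hSa n) l hl hm

theorem effR_nonneg (X : NormalModel K) (G : J → Finset Kˣ) (hG : ∀ j, X.BPF (G j)) (l : J)
    (hm : Moves G {l} l) (b : J → ℝ) (hb : b ∈ EffR X G) : 0 ≤ b l := by
  by_contra hneg
  push Not at hneg
  have := effR_pos X G hG {l} b hb (by rintro j rfl; exact hneg.le) l rfl hm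
  linarith

theorem effR_pair (X : NormalModel K) (G : J → Finset Kˣ) (hG : ∀ j, X.BPF (G j)) (l j : J)
    (hm : Moves G {l, j} l) (b : J → ℝ) (hb : b ∈ EffR X G) (hl : b l < 0) : 0 < b j := by
  by_contra hneg
  push Not at hneg
  have := effR_pos X G hG {l, j} b hb (by rintro i (rfl | rfl); exacts [hl.le, hneg]) l
    (by simp) hm
  linarith

theorem effR_add (X : NormalModel K) (G : J → Finset Kˣ) {b b' : J → ℝ} (hb : b ∈ EffR X G)
    (hb' : b' ∈ EffR X G) : b + b' ∈ EffR X G := by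
  obtain ⟨f, hf⟩ := hb
  obtain ⟨f', hf'⟩ := hb'
  refine ⟨f + f', fun Q hQ => ?_⟩
  have h1 := hf Q hQ
  have h2 := hf' Q hQ
  rw [ordR_add]
  simp only [Pi.add_apply, add_mul, Finset.sum_add_distrib]
  linarith

theorem effR_smul (X : NormalModel K) (G : J → Finset Kˣ) {c : ℝ} (hc : 0 ≤ c) {b : J → ℝ}
    (hb : b ∈ EffR X G) : c • b ∈ EffR X G := by
  obtain ⟨f, hf⟩ := hb
  refine ⟨c • f, fun Q hQ => ?_⟩
  have h1 := mul_nonneg hc (hf Q hQ)
  rw [ordR_smul]
  simp only [Pi.smul_apply, smul_eq_mul, mul_assoc, ← Finset.mul_sum]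
  linarith

theorem effR_of_nonneg (X : NormalModel K) (G : J → Finset Kˣ) (hG : ∀ j, X.BPF (G j))
    {b : J → ℝ} (hb : ∀ j, 0 ≤ b j) : b ∈ EffR X G := by
  choose t ht using fun j => bpf_nonempty X _ (hG j)
  refine ⟨∑ j, Finsupp.single (t j) (b j), fun Q _ => ?_⟩
  rw [ordR_sum]
  simp only [ordR_single]
  rw [← Finset.sum_add_distrib]
  refine Finset.sum_nonneg fun j _ => ?_
  rw [← mul_add]
  exact mul_nonneg (hb j) (sys_add_ord_nonneg Q (G j) (t j) (ht j))

theorem effZ_sub_effR (X : NormalModel K) (G : J → Finset Kˣ) (hG : ∀ j, X.BPF (G j)) {a : J → ℤ}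
    (ha : a ∈ EffZ X G) : (fun j => (a j : ℝ)) ∈ EffR X G := by
  obtain ⟨g, hg⟩ := ha
  refine ⟨Finsupp.single g 1, fun Q hQ => ?_⟩
  rw [ordR_single]
  have h1 := hg Q hQ
  have h2 : (0 : ℝ) ≤ ((Q.ord (g : K) + ∑ j, a j * sysZ Q (G j) : ℤ) : ℝ) := by exact_mod_cast h1
  push_cast at h2
  have h3 : ∑ j, (a j : ℝ) * (sysZ Q (G j) : ℝ) = ∑ j, (a j : ℝ) * sys Q (G j) :=
    Finset.sum_congr rfl fun j _ => by rw [sysZ_cast _ _ (bpf_nonempty X _ (hG j))]
  rw [h3] at h2
  linarith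

end Pool.Agent.LibGMC
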