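import Pool.Agent.LibGMC.System
import Pool.Agent.LibGMC.Neg

/-! Steps between models: pull-back of effective classes, the common form of flops and
divisorial contractions. -/

namespace Pool.Agent.LibGMC

open Pool.Agent.LibGMM

variable {K : Type} [Field K] [Algebra ℂ K] {J : Type} [Fintype J]

/-- An effective class in the span of base point free classes is nonnegative along every
valuation. -/
theorem pull (X : NormalModel K) (G : J → Finset Kˣ) (hG : ∀ j, X.BPF (G j)) (b : J → ℝ)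
    (u : Kˣ →₀ ℝ) (h : ∀ P, X.IsPrimeDiv P → 0 ≤ ∑ j, b j * sys P (G j) + ordR P u)
    (Q : DVal K) : 0 ≤ ∑ j, b j * sys Q (G j) + ordR Q u := by
  classical
  obtain ⟨p, hp⟩ := X.exists_centre Q
  choose t ht hloc using fun j => hG j p
  have key : ∀ P : DVal K, (∀ x ∈ X.loc p, 0 ≤ P.ord x) →
      ∑ j, b j * sys P (G j) = - ordR P (∑ j, Finsupp.single (t j) (b j)) := by
    intro P hP
    rw [ordR_sum, ← Finset.sum_neg_distrib]
    refine Finset.sum_congr rfl fun j _ => ?_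
    rw [ordR_single, sys_eq P (G j) (t j) (ht j) fun g' hg' => hP _ (hloc j g' hg')]
    ring
  have h1 := X.ordR_nonneg p (u - ∑ j, Finsupp.single (t j) (b j)) (fun P hP hPp => by
    have h2 := h P hP
    rw [key P hPp] at h2
    rw [ordR_sub]; linarith) Q hp
  rw [key Q fun x hx => X.loc_le_of_isCentre Q p hp x hx]
  rw [ordR_sub] at h1
  linarith

theorem exists_sys (Q : DVal K) (F : Finset Kˣ) (hF : F.Nonempty) :
    ∃ t ∈ F, sys Q F = - (Q.ord (t : K) : ℝ) := by
  obtain ⟨t, ht, hmin⟩ := Finset.exists_min_image F (fun t : Kˣ => Q.ord (t : K)) hF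
  refine ⟨t, ht, sys_eq Q F t ht fun g' hg' => ?_⟩
  rw [Q.ord_div g'.ne_zero t.ne_zero]
  have := hmin g' hg'
  omega

theorem pull1 (X : NormalModel K) (G : J → Finset Kˣ) (hG : ∀ j, X.BPF (G j)) (b : J → ℝ)
    (u : Kˣ →₀ ℝ) (F : Finset Kˣ) (hF : F.Nonempty)
    (h : ∀ P, X.IsPrimeDiv P → sys P F ≤ ∑ j, b j * sys P (G j) + ordR P u) (Q : DVal K) :
    sys Q F ≤ ∑ j, b j * sys Q (G j) + ordR Q u := by
  obtain ⟨t, ht, hQ⟩ := exists_sys Q F hF
  have h1 := pull X G hG b (u + Finsupp.single t 1) (fun P hP => by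
    have h2 := h P hP
    have h3 := sys_add_ord_nonneg P F t ht
    rw [ordR_add, ordR_single]; linarith) Q
  rw [ordR_add, ordR_single] at h1
  rw [hQ]; linarith

theorem pull2 (X : NormalModel K) (G : J → Finset Kˣ) (hG : ∀ j, X.BPF (G j)) (b : J → ℝ)
    (u : Kˣ →₀ ℝ) (F F' : Finset Kˣ) (hF : F.Nonempty) (hF' : F'.Nonempty)
    (h : ∀ P, X.IsPrimeDiv P → sys P F + sys P F' ≤ ∑ j, b j * sys P (G j) + ordR P u)
    (Q : DVal K) : sys Q F + sys Q F' ≤ ∑ j, b j * sys Q (G j) + ordR Q u := by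
  obtain ⟨t, ht, hQ⟩ := exists_sys Q F hF
  obtain ⟨t', ht', hQ'⟩ := exists_sys Q F' hF'
  have h1 := pull X G hG b (u + (Finsupp.single t 1 + Finsupp.single t' 1)) (fun P hP => by
    have h2 := h P hP
    have h3 := sys_add_ord_nonneg P F t ht
    have h4 := sys_add_ord_nonneg P F' t' ht'
    rw [ordR_add, ordR_add, ordR_single, ordR_single]; linarith) Q
  rw [ordR_add, ordR_add, ordR_single, ordR_single] at h1
  rw [hQ, hQ']; linarith

theorem sys_one (Q : DVal K) : sys Q {1} = 0 := by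
  rw [sys_eq Q {1} 1 (by simp) (by intro g' hg'; rw [Finset.mem_singleton] at hg'; subst hg'; simp)]
  simp

variable [DecidableEq J]

/-- The change of coordinates of a step. -/
def stepMap (i : J) (t : J → ℝ) (s : ℝ) (b : J → ℝ) : J → ℝ :=
  fun j => if j = i then - (s * b i) else b j + b i * t j

theorem stepMap_same (i : J) (t : J → ℝ) (s : ℝ) (b : J → ℝ) : stepMap i t s b i = - (s * b i) := by
  simp [stepMap]

theorem stepMap_ne {i j : J} (t : J → ℝ) (s : ℝ) (b : J → ℝ) (h : j ≠ i) :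
    stepMap i t s b j = b j + b i * t j := by
  simp [stepMap, h]

theorem stepMap_add (i : J) (t : J → ℝ) (s : ℝ) (b b' : J → ℝ) :
    stepMap i t s (b + b') = stepMap i t s b + stepMap i t s b' := by
  funext j
  by_cases h : j = i
  · subst h; simp only [Pi.add_apply, stepMap_same]; ring
  · simp only [Pi.add_apply, stepMap_ne _ _ _ h]; ring

theorem stepMap_smul (i : J) (t : J → ℝ) (s : ℝ) (r : ℝ) (b : J → ℝ) :
    stepMap i t s (r • b) = r • stepMap i t s b := by
  funext j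
  by_cases h : j = i
  · subst h; simp only [Pi.smul_apply, smul_eq_mul, stepMap_same]; ring
  · simp only [Pi.smul_apply, smul_eq_mul, stepMap_ne _ _ _ h]; ring

/-- A step from `X` to `X'`: a flop (`s = 1`) or a divisorial contraction (`s = 0`). -/
structure Step (X X' : NormalModel K) (G G' : J → Finset Kˣ) (i : J) (t : J → ℝ) (s : ℝ) :
    Prop where
  sub : ∀ Q, X'.IsPrimeDiv Q → X.IsPrimeDiv Q
  snonneg : 0 ≤ s
  ne : ∀ j, j ≠ i → ∃ g, ∀ Q, sys Q (G' j) = sys Q (G j) + ordR Q g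
  cls : ∃ u, (∀ Q, sys Q (G i) + s * sys Q (G' i) ≤
      ∑ j ∈ Finset.univ.erase i, t j * sys Q (G' j) + ordR Q u) ∧
    (∀ Q, X'.IsPrimeDiv Q → sys Q (G i) + s * sys Q (G' i) =
      ∑ j ∈ Finset.univ.erase i, t j * sys Q (G' j) + ordR Q u) ∧
    (∀ Q, X.IsPrimeDiv Q → ¬ X'.IsPrimeDiv Q → sys Q (G i) + s * sys Q (G' i) <
      ∑ j ∈ Finset.univ.erase i, t j * sys Q (G' j) + ordR Q u)

theorem sum_ite_erase (i : J) (c : J → ℝ) (x : J → ℝ) :
    ∑ j, (if j = i then 0 else c j) * x j = ∑ j ∈ Finset.univ.erase i, c j * x j := by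
  rw [← Finset.add_sum_erase Finset.univ _ (Finset.mem_univ i)]
  simp only [if_true, zero_mul, zero_add]
  refine Finset.sum_congr rfl fun j hj => ?_
  rw [if_neg (Finset.ne_of_mem_erase hj)]

/-- The classes of the systems other than the `i`-th are the same along all valuations. -/
theorem Crosses.ne {X X' : NormalModel K} {G G' : J → Finset Kˣ} (hG : ∀ j, X.BPF (G j))
    (hG' : ∀ j, X'.BPF (G' j)) {i : J} {c : J → ℤ} (h : Crosses X X' G G' i c) (j : J)
    (hj : j ≠ i) : ∃ g, ∀ Q, sys Q (G' j) = sys Q (G j) + ordR Q g := by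
  obtain ⟨g, hg⟩ := h.same j hj
  have hone : ∀ (F : J → Finset Kˣ) (Q : DVal K),
      ∑ l, (if l = j then (1 : ℝ) else 0) * sys Q (F l) = sys Q (F j) := by
    intro F Q
    simp
  refine ⟨g, fun Q => le_antisymm ?_ ?_⟩
  · have := pull1 X G hG (fun l => if l = j then (1 : ℝ) else 0) g (G' j)
      (bpf_nonempty X' _ (hG' j)) (fun P hP => by rw [hone]; exact (hg P hP).le) Q
    rwa [hone] at this
  · have := pull1 X' G' hG' (fun l => if l = j then (1 : ℝ) else 0) (-g) (G j)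
      (bpf_nonempty X _ (hG j)) (fun P hP => by
        rw [hone, ordR_neg]
        have := hg P ((h.prime P).1 hP)
        simp only at this
        linarith) Q
    rw [hone, ordR_neg] at this
    linarith

theorem Crosses.step {X X' : NormalModel K} {G G' : J → Finset Kˣ} (hG : ∀ j, X.BPF (G j))
    (hG' : ∀ j, X'.BPF (G' j)) {i : J} {c : J → ℤ} (h : Crosses X X' G G' i c) :
    Step X X' G G' i (fun j => (c j : ℝ)) 1 := by
  have hne := fun j hj => h.ne hG hG' j hj
  choose! g hg using hne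
  obtain ⟨u, hu⟩ := h.cls
  have hsum : ∀ Q, ∑ j ∈ Finset.univ.erase i, (c j : ℝ) * sys Q (G j) =
      ∑ j ∈ Finset.univ.erase i, (c j : ℝ) * sys Q (G' j) -
        ordR Q (∑ j ∈ Finset.univ.erase i, (c j : ℝ) • g j) := by
    intro Q
    rw [ordR_sum, ← Finset.sum_sub_distrib]
    refine Finset.sum_congr rfl fun j hj => ?_
    rw [hg j (Finset.ne_of_mem_erase hj) Q, ordR_smul]; ring
  have hle : ∀ Q, sys Q (G i) + sys Q (G' i) ≤
      ∑ j ∈ Finset.univ.erase i, (c j : ℝ) * sys Q (G j) + ordR Q u := by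
    intro Q
    have := pull2 X G hG (fun j => if j = i then (0 : ℝ) else c j) u (G i) (G' i)
      (bpf_nonempty X _ (hG i)) (bpf_nonempty X' _ (hG' i)) (fun P hP => by
        rw [sum_ite_erase i (fun j => (c j : ℝ)) (fun j => sys P (G j))]
        exact (hu P hP).le) Q
    rwa [sum_ite_erase i (fun j => (c j : ℝ)) (fun j => sys Q (G j))] at this
  refine ⟨fun Q hQ => (h.prime Q).1 hQ, zero_le_one, fun j hj => ⟨g j, hg j hj⟩,
    u - ∑ j ∈ Finset.univ.erase i, (c j : ℝ) • g j, fun Q => ?_, fun Q hQ => ?_,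
    fun Q h1 h2 => absurd ((h.prime Q).2 h1) h2⟩
  · have h1 := hle Q
    rw [hsum] at h1
    rw [ordR_sub, one_mul]; linarith
  · have h1 := hu Q ((h.prime Q).1 hQ)
    simp only at h1
    rw [hsum] at h1
    rw [ordR_sub, one_mul]; linarith

theorem Shrinks.step {X X' : NormalModel K} {G G' : J → Finset Kˣ} (hG : ∀ j, X.BPF (G j))
    {l : J} {e : J → ℝ} (h : Shrinks X X' G G' l e) : Step X X' G G' l e 0 := by
  obtain ⟨E, ⟨u, hu⟩, hE0, hE1⟩ := h.cls
  have hsame : ∀ j, j ≠ l → G' j = G j := by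
    intro j hj
    rw [h.same]; simp [hj]
  have hsum : ∀ Q, ∑ j ∈ Finset.univ.erase l, e j * sys Q (G' j) =
      ∑ j ∈ Finset.univ.erase l, e j * sys Q (G j) := by
    intro Q
    refine Finset.sum_congr rfl fun j hj => ?_
    rw [hsame j (Finset.ne_of_mem_erase hj)]
  have hEnn : ∀ Q, X.IsPrimeDiv Q → 0 ≤ E Q := by
    intro Q hQ
    by_cases h : X'.IsPrimeDiv Q
    · exact (hE0 Q h).ge
    · exact (hE1 Q hQ h).le
  refine ⟨h.prime, le_rfl, fun j hj => ⟨0, fun Q => by rw [hsame j hj]; simp⟩, u, fun Q => ?_,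
    fun Q hQ => ?_, fun Q h1 h2 => ?_⟩
  · rw [hsum, zero_mul, add_zero]
    have := pull1 X G hG (fun j => if j = l then (0 : ℝ) else e j) u (G l)
      (bpf_nonempty X _ (hG l)) (fun P hP => by
        rw [sum_ite_erase l e (fun j => sys P (G j))]
        have h1 := hu P hP
        have h2 := hEnn P hP
        simp only at h1
        linarith) Q
    rwa [sum_ite_erase l e (fun j => sys Q (G j))] at this
  · rw [hsum, zero_mul, add_zero]
    have h1 := hu Q (h.prime Q hQ)
    have h2 := hE0 Q hQ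
    simp only at h1
    linarith
  · rw [hsum, zero_mul, add_zero]
    have h3 := hu Q h1
    have h4 := hE1 Q h1 h2
    simp only at h3
    linarith

section step

variable {X X' : NormalModel K} {G G' : J → Finset Kˣ} {i : J} {t : J → ℝ} {s : ℝ}

/-- The change of a class under a step. -/
theorem Step.change (h : Step X X' G G' i t s) (b : J → ℝ) : ∃ w : Kˣ →₀ ℝ,
    (∀ Q, X'.IsPrimeDiv Q → ∑ j, b j * sys Q (G j) =
      ∑ j, stepMap i t s b j * sys Q (G' j) + ordR Q w) ∧
    (b i ≤ 0 → ∀ Q, ∑ j, stepMap i t s b j * sys Q (G' j) + ordR Q w ≤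
      ∑ j, b j * sys Q (G j)) ∧
    (0 ≤ b i → ∀ Q, ∑ j, b j * sys Q (G j) ≤
      ∑ j, stepMap i t s b j * sys Q (G' j) + ordR Q w) ∧
    (b i < 0 → ∀ Q, X.IsPrimeDiv Q → ¬ X'.IsPrimeDiv Q →
      ∑ j, stepMap i t s b j * sys Q (G' j) + ordR Q w < ∑ j, b j * sys Q (G j)) := by
  have hne := h.ne
  choose! g hg using hne
  obtain ⟨u, hu1, hu2, hu3⟩ := h.cls
  have hA : ∀ Q, ∑ j, b j * sys Q (G j) = ∑ j ∈ Finset.univ.erase i, b j * sys Q (G' j) -
      ordR Q (∑ j ∈ Finset.univ.erase i, b j • g j) + b i * sys Q (G i) := by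
    intro Q
    rw [← Finset.add_sum_erase Finset.univ (fun j => b j * sys Q (G j)) (Finset.mem_univ i),
      ordR_sum, ← Finset.sum_sub_distrib, add_comm]
    congr 1
    refine Finset.sum_congr rfl fun j hj => ?_
    rw [hg j (Finset.ne_of_mem_erase hj) Q, ordR_smul]; ring
  have hB : ∀ Q, ∑ j, stepMap i t s b j * sys Q (G' j) =
      ∑ j ∈ Finset.univ.erase i, b j * sys Q (G' j) +
        b i * (∑ j ∈ Finset.univ.erase i, t j * sys Q (G' j) - s * sys Q (G' i)) := by
    intro Q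
    rw [← Finset.add_sum_erase Finset.univ (fun j => stepMap i t s b j * sys Q (G' j))
      (Finset.mem_univ i), stepMap_same, mul_sub, Finset.mul_sum]
    have : ∑ j ∈ Finset.univ.erase i, stepMap i t s b j * sys Q (G' j) =
        ∑ j ∈ Finset.univ.erase i, b j * sys Q (G' j) +
          ∑ j ∈ Finset.univ.erase i, b i * (t j * sys Q (G' j)) := by
      rw [← Finset.sum_add_distrib]
      refine Finset.sum_congr rfl fun j hj => ?_
      rw [stepMap_ne _ _ _ (Finset.ne_of_mem_erase hj)]; ring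
    rw [this]; ring
  refine ⟨b i • u - ∑ j ∈ Finset.univ.erase i, b j • g j, fun Q hQ => ?_, fun hb Q => ?_,
    fun hb Q => ?_, fun hb Q h1 h2 => ?_⟩
  · rw [hA, hB, ordR_sub, ordR_smul]
    have := hu2 Q hQ
    linear_combination b i * this
  · rw [hA, hB, ordR_sub, ordR_smul]
    have := mul_le_mul_of_nonpos_left (hu1 Q) hb
    linarith
  · rw [hA, hB, ordR_sub, ordR_smul]
    have := mul_le_mul_of_nonneg_left (hu1 Q) hb
    linarith
  · rw [hA, hB, ordR_sub, ordR_smul]
    have := mul_lt_mul_of_neg_left (hu3 Q h1 h2) hb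
    linarith

theorem Step.effR (h : Step X X' G G' i t s) {b : J → ℝ} (hb : b ∈ EffR X G) :
    stepMap i t s b ∈ EffR X' G' := by
  obtain ⟨f, hf⟩ := hb
  obtain ⟨w, hw, -⟩ := h.change b
  refine ⟨f + w, fun Q hQ => ?_⟩
  have h1 := hf Q (h.sub Q hQ)
  have h2 := hw Q hQ
  simp only at h1 ⊢
  rw [h2] at h1
  rw [ordR_add]; linarith

/-- The sum of the systems on `X'` dominates the sum of the systems on `X`. -/
theorem Step.dominates (h : Step X X' G G' i t s) (hG' : ∀ j, X'.BPF (G' j)) :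
    ∃ (M : ℝ) (w : Kˣ →₀ ℝ), 0 < M ∧
      ∀ Q, ∑ j, sys Q (G j) ≤ M * ∑ j, sys Q (G' j) + ordR Q w := by
  obtain ⟨w, -, -, hw, -⟩ := h.change (fun _ => 1)
  choose τ hτ using fun j => bpf_nonempty X' _ (hG' j)
  set M : ℝ := 1 + ∑ j, |stepMap i t s (fun _ => (1 : ℝ)) j| with hM
  have hMj : ∀ j, stepMap i t s (fun _ => (1 : ℝ)) j ≤ M := by
    intro j
    have h1 : |stepMap i t s (fun _ => (1 : ℝ)) j| ≤
        ∑ j, |stepMap i t s (fun _ => (1 : ℝ)) j| :=
      Finset.single_le_sum (f := fun j => |stepMap i t s (fun _ => (1 : ℝ)) j|)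
        (fun _ _ => abs_nonneg _) (Finset.mem_univ j)
    have h2 := le_abs_self (stepMap i t s (fun _ => (1 : ℝ)) j)
    linarith
  refine ⟨M, w + ∑ j, Finsupp.single (τ j) (M - stepMap i t s (fun _ => (1 : ℝ)) j),
    by positivity, fun Q => ?_⟩
  have h1 := hw zero_le_one Q
  simp only [one_mul] at h1
  refine h1.trans ?_
  rw [ordR_add, ordR_sum]
  have h2 : 0 ≤ ∑ j, (M - stepMap i t s (fun _ => (1 : ℝ)) j) *
      (sys Q (G' j) + (Q.ord (τ j : K) : ℝ)) :=
    Finset.sum_nonneg fun j _ => mul_nonneg (by linarith [hMj j])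
      (sys_add_ord_nonneg Q (G' j) (τ j) (hτ j))
  have h3 : ∑ j, (M - stepMap i t s (fun _ => (1 : ℝ)) j) *
      (sys Q (G' j) + (Q.ord (τ j : K) : ℝ)) =
      M * ∑ j, sys Q (G' j) - ∑ j, stepMap i t s (fun _ => (1 : ℝ)) j * sys Q (G' j) +
      ∑ j, ordR Q (Finsupp.single (τ j) (M - stepMap i t s (fun _ => (1 : ℝ)) j)) := by
    rw [Finset.mul_sum, ← Finset.sum_sub_distrib, ← Finset.sum_add_distrib]
    refine Finset.sum_congr rfl fun j _ => ?_
    rw [ordR_single]; ring
  rw [h3] at h2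
  linarith

end step

end Pool.Agent.LibGMC
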