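import Pool.Agent.LibGMC.Defs
import Pool.Agent.LibGMM.G3
import Pool.Agent.LibGMM.G4
import Pool.Agent.LibGMM.G5
import Pool.Agent.LibGMM.G6
import Pool.Agent.LibGMM.G8

/-! Effective classes and algebraic elements. -/

namespace Pool.Agent.LibGMC

open Pool.Agent.LibGMM

/-- An element of all valuation rings above a field is algebraic over it. -/
theorem isAlgebraic_of_forall_val {K : Type} [Field K] [Algebra ℂ K] (k : IntermediateField ℂ K)
    (x : K) (h : ∀ V : ValuationSubring K, (∀ c ∈ k, c ∈ V) → x ∈ V) : IsAlgebraic k x := by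
  have h1 : x ∈ (⨅ V : {V : ValuationSubring K // (k : Set K) ⊆ V.toSubring},
      V.1.toSubring) := by
    rw [Subring.mem_iInf]
    exact fun V => h V.1 fun c hc => V.2 hc
  rw [iInf_valuationSubring_superset] at h1
  have h2 : IsIntegral (Subring.closure (k : Set K)) x := h1
  have h3 : Subring.closure (k : Set K) ≤ k.toSubfield.toSubring :=
    Subring.closure_le.2 fun y hy => hy
  let φ : Subring.closure (k : Set K) →+* k :=
    { toFun := fun y => ⟨y.1, h3 y.2⟩
      map_one' := rfl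
      map_mul' := fun _ _ => rfl
      map_zero' := rfl
      map_add' := fun _ _ => rfl }
  have h4 : IsIntegral k x :=
    h2.map_of_comp_eq φ (RingHom.id K) (by ext; rfl)
  exact h4.isAlgebraic

variable {K : Type} [Field K] [Algebra ℂ K]

theorem nonempty_pt (X : NormalModel K) : Nonempty X.Pt := by
  obtain ⟨i⟩ := X.ne
  exact ⟨⟨i, ⊥, Ideal.isPrime_bot⟩⟩

theorem bpf_nonempty (X : NormalModel K) (G : Finset Kˣ) (hG : X.BPF G) : G.Nonempty := by
  obtain ⟨p⟩ := nonempty_pt X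
  obtain ⟨h, hh, -⟩ := hG p
  exact ⟨h, hh⟩

/-- The integer underlying the value of a class. -/
noncomputable def sysZ (Q : DVal K) (G : Finset Kˣ) : ℤ :=
  - ⨅ h : {h // h ∈ G}, Q.ord ((h : Kˣ) : K)

theorem sysZ_cast (Q : DVal K) (G : Finset Kˣ) (hG : G.Nonempty) :
    ((sysZ Q G : ℤ) : ℝ) = sys Q G := by
  unfold sysZ sys
  push_cast
  congr 1
  obtain ⟨g, hg⟩ := hG
  haveI : Nonempty {h // h ∈ G} := ⟨⟨g, hg⟩⟩
  obtain ⟨s, hs⟩ := Finite.exists_min fun s : {h // h ∈ G} => Q.ord ((s : Kˣ) : K)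
  have h1 : (⨅ s : {h // h ∈ G}, Q.ord ((s : Kˣ) : K)) = Q.ord ((s : Kˣ) : K) :=
    le_antisymm (ciInf_le (Finite.bddBelow_range _) s) (le_ciInf hs)
  have h2 : (⨅ s : {h // h ∈ G}, (Q.ord ((s : Kˣ) : K) : ℝ)) = (Q.ord ((s : Kˣ) : K) : ℝ) :=
    le_antisymm (ciInf_le (Finite.bddBelow_range _) s)
      (le_ciInf fun t => by exact_mod_cast hs t)
  rw [h1, h2]

theorem sysZ_zero (Q : DVal K) (G : Finset Kˣ) (hG : G.Nonempty)
    (h : ∀ g ∈ G, Q.ord ((g : Kˣ) : K) = 0) : sysZ Q G = 0 := by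
  unfold sysZ
  haveI : Nonempty {h // h ∈ G} := ⟨⟨hG.choose, hG.choose_spec⟩⟩
  have : (fun s : {h // h ∈ G} => Q.ord ((s : Kˣ) : K)) = fun _ => 0 := by
    funext s; exact h s.1 s.2
  rw [this]; simp

theorem ord_prod_zpow'' (O : DVal K) {κ : Type} [Fintype κ] (v : κ → Kˣ) (y : κ → ℤ) :
    O.ord ((∏ k, v k ^ y k : Kˣ) : K) = ∑ k, O.ord (v k) * y k := by
  rw [Units.coe_prod, O.ord_prod _ _ (fun i _ => Units.ne_zero _)]
  refine Finset.sum_congr rfl fun k _ => ?_
  rw [Units.val_zpow_eq_zpow_val, O.ord_zpow]; ring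

theorem ordR_eq_sum'' (O : DVal K) (f : Kˣ →₀ ℝ) :
    ordR O f = ∑ k : f.support, (O.ord ((k : Kˣ) : K) : ℝ) * f k := by
  unfold ordR Finsupp.sum
  rw [← Finset.sum_coe_sort f.support (fun a => f a * (O.ord (a : K) : ℝ))]
  exact Finset.sum_congr rfl fun k _ => mul_comm _ _

variable {J : Type} [Fintype J]

/-- The integral classes with an effective divisor (up to integral linear equivalence). -/
def EffZ (X : NormalModel K) (G : J → Finset Kˣ) : Set (J → ℤ) :=
  {a | ∃ z : Kˣ, ∀ Q, X.IsPrimeDiv Q → 0 ≤ Q.ord (z : K) + ∑ j, a j * sysZ Q (G j)}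

/-- The real classes with an effective divisor. -/
def EffR (X : NormalModel K) (G : J → Finset Kˣ) : Set (J → ℝ) :=
  {b | X.REffective fun Q => ∑ j, b j * sys Q (G j)}

/-- A real effective class is a positive combination of integral effective classes, which satisfy
the same sign conditions. -/
theorem decomp (X : NormalModel K) (G : J → Finset Kˣ) (hG : ∀ j, X.BPF (G j)) (S : Set J)
    (b : J → ℝ) (hb : b ∈ EffR X G) (hS : ∀ j ∈ S, b j ≤ 0) :
    ∃ (N : ℕ) (c : Fin N → ℝ) (a : Fin N → J → ℤ), (∀ n, 0 < c n) ∧ (∀ n, a n ∈ EffZ X G) ∧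
      (∀ n, ∀ j ∈ S, a n j ≤ 0) ∧ ∀ j, b j = ∑ n, c n * (a n j : ℝ) := by
  classical
  obtain ⟨f, hf⟩ := hb
  have hne : ∀ j, (G j).Nonempty := fun j => bpf_nonempty X _ (hG j)
  let I : Type := {Q : DVal K // X.IsPrimeDiv Q} ⊕ S
  let M : I → (J ⊕ f.support) → ℤ := fun i => Sum.elim
    (fun Q => Sum.elim (fun j => sysZ Q.1 (G j)) (fun k => Q.1.ord ((k : Kˣ) : K)))
    (fun s => Sum.elim (fun j => if j = s.1 then -1 else 0) (fun _ => 0)) i
  have hM : (Set.range M).Finite := by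
    have hfin : ((⋃ k : f.support, {Q | X.IsPrimeDiv Q ∧ Q.ord ((k : Kˣ) : K) ≠ 0}) ∪
        (⋃ v : (Σ j, {g // g ∈ G j}),
          {Q | X.IsPrimeDiv Q ∧ Q.ord ((v.2.1 : Kˣ) : K) ≠ 0})).Finite :=
      (Set.finite_iUnion fun k : f.support => X.finite_ord_ne k).union
        (Set.finite_iUnion fun v : (Σ j, {g // g ∈ G j}) => X.finite_ord_ne v.2.1)
    have hS : (Set.range fun s : S => M (Sum.inr s)).Finite := Set.finite_range _
    refine Set.Finite.subset (((hfin.image fun (Q : DVal K) => (Sum.elim (fun j => sysZ Q (G j))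
      (fun k => Q.ord ((k : Kˣ) : K)) : (J ⊕ f.support) → ℤ)).union
        (Set.finite_singleton 0)).union hS) ?_
    rintro _ ⟨Q | s, rfl⟩
    · left
      by_cases h : M (Sum.inl Q) = 0
      · right; exact h
      · left
        refine ⟨Q.1, ?_, rfl⟩
        obtain ⟨k, hk⟩ := Function.ne_iff.1 h
        rcases k with j | k
        · right
          have hk' : sysZ Q.1 (G j) ≠ 0 := hk
          have : ∃ g ∈ G j, Q.1.ord ((g : Kˣ) : K) ≠ 0 := by
            by_contra hcon
            push Not at hcon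
            exact hk' (sysZ_zero Q.1 _ (hne j) hcon)
          obtain ⟨g, hg, hs⟩ := this
          exact Set.mem_iUnion.2 ⟨⟨j, ⟨g, hg⟩⟩, Q.2, hs⟩
        · left
          exact Set.mem_iUnion.2 ⟨k, Q.2, hk⟩
    · right
      exact ⟨s, rfl⟩
  have hx : ∀ i : I, 0 ≤ ∑ k : J ⊕ f.support, (M i k : ℝ) *
      (Sum.elim b (fun k : f.support => f k) k : ℝ) := by
    rintro (Q | s)
    · have := hf Q.1 Q.2
      rw [ordR_eq_sum''] at this
      rw [Fintype.sum_sum_type]
      refine this.trans (le_of_eq ?_)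
      congr 1
      refine Finset.sum_congr rfl fun j _ => ?_
      change b j * sys Q.1 (G j) = ((sysZ Q.1 (G j) : ℤ) : ℝ) * b j
      rw [sysZ_cast _ _ (hne j)]; ring
    · rw [Fintype.sum_sum_type]
      have h1 : ∑ j : J, (M (Sum.inr s) (Sum.inl j) : ℝ) *
          (Sum.elim b (fun k : f.support => f k) (Sum.inl j) : ℝ) = - b s.1 := by
        rw [Finset.sum_eq_single s.1]
        · simp [M]
        · intro j _ hj
          simp [M, hj]
        · intro h; exact absurd (Finset.mem_univ _) h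
      have h2 : ∑ k : f.support, (M (Sum.inr s) (Sum.inr k) : ℝ) *
          (Sum.elim b (fun k : f.support => f k) (Sum.inr k) : ℝ) = 0 :=
        Finset.sum_eq_zero fun k _ => by simp [M]
      rw [h1, h2]
      have := hS s.1 s.2
      linarith
  obtain ⟨N, c, y, hc, hy, hxy⟩ := rational_decomp M hM _ hx
  refine ⟨N, c, fun n j => y n (Sum.inl j), hc, ?_, ?_, fun j => hxy (Sum.inl j)⟩
  · intro n
    refine ⟨∏ k : f.support, (k : Kˣ) ^ y n (Sum.inr k), ?_⟩
    intro Q hQ
    have h1 := hy n (Sum.inl ⟨Q, hQ⟩)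
    rw [Fintype.sum_sum_type] at h1
    change 0 ≤ ∑ j, sysZ Q (G j) * y n (Sum.inl j) +
      ∑ k : f.support, Q.ord ((k : Kˣ) : K) * y n (Sum.inr k) at h1
    rw [ord_prod_zpow'' Q (fun k : f.support => (k : Kˣ)) (fun k => y n (Sum.inr k)), add_comm]
    refine h1.trans (le_of_eq ?_)
    congr 1
    exact Finset.sum_congr rfl fun j _ => by ring
  · intro n j hj
    have h1 := hy n (Sum.inr ⟨j, hj⟩)
    rw [Fintype.sum_sum_type] at h1
    have h2 : ∑ l : J, M (Sum.inr ⟨j, hj⟩) (Sum.inl l) * y n (Sum.inl l) = - y n (Sum.inl j) := by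
      rw [Finset.sum_eq_single j]
      · simp [M]
      · intro l _ hl
        simp [M, hl]
      · intro h; exact absurd (Finset.mem_univ _) h
    have h3 : ∑ k : f.support, M (Sum.inr ⟨j, hj⟩) (Sum.inr k) * y n (Sum.inr k) = 0 :=
      Finset.sum_eq_zero fun k _ => by simp [M]
    rw [h2, h3] at h1
    linarith

end Pool.Agent.LibGMC
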