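import Pool.Agent.LibGMM.Defs

/-!
Normal projective varieties with base point free linear systems.
-/

namespace Pool.Agent.LibGMC

open Pool.Agent.LibGMM

variable {K : Type} [Field K] [Algebra ℂ K] {J : Type}

/-- The field generated by the quotients of the sections in `G j`, `j ∉ S`: the function field of
the image of `X` under the map given by the linear systems `G j`, `j ∉ S`. -/
noncomputable def ratioField (G : J → Finset Kˣ) (S : Set J) : IntermediateField ℂ K :=
  IntermediateField.adjoin ℂ {y | ∃ j, j ∉ S ∧ ∃ g ∈ G j, ∃ h ∈ G j, y = (g : K) / h}

/-- The map given by the linear system `G l` is not constant on the general fibres of the map given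
by the linear systems `G j`, `j ∉ S`. -/
def Moves (G : J → Finset Kˣ) (S : Set J) (l : J) : Prop :=
  ∃ g ∈ G l, ∃ h ∈ G l, Transcendental (ratioField G S) ((g : K) / h)

/-- `D` is pseudo-effective: its sum with every positive multiple of the hyperplane class is
effective. -/
def PseudoEffective (X : NormalModel K) (D : DVal K → ℝ) : Prop :=
  ∀ ε : ℝ, 0 < ε → X.REffective fun Q => D Q + ε * X.hyperplane Q

end Pool.Agent.LibGMC
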