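import Pool.Agent.LibGMC.Defs

/-!
Systems of normal projective varieties with the same function field, connected by flops and
divisorial contractions.
-/

namespace Pool.Agent.LibGMC

open Pool.Agent.LibGMM

/-- `X` and `X'` are isomorphic in codimension one, the classes of the `G j` and of the `G' j` with
`j ≠ i` are the same, and the class of `G' i` is `∑ c j G j - G i` (sum over `j ≠ i`). -/
structure Crosses {K : Type} [Field K] [Algebra ℂ K] {J : Type} [Fintype J] [DecidableEq J]
    (X X' : NormalModel K) (G G' : J → Finset Kˣ) (i : J) (c : J → ℤ) : Prop where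
  prime : ∀ Q, X'.IsPrimeDiv Q ↔ X.IsPrimeDiv Q
  same : ∀ j, j ≠ i → X.RLinEq (fun Q => sys Q (G' j)) fun Q => sys Q (G j)
  cls : X.RLinEq (fun Q => sys Q (G i) + sys Q (G' i))
    fun Q => ∑ j ∈ Finset.univ.erase i, c j * sys Q (G j)

/-- `X'` is obtained from `X` by the contraction of prime divisors which form the support of an
effective divisor `E ~ ∑ e j G j - G l` (sum over `j ≠ l`). The linear systems on `X'` are the
`G j`, `j ≠ l` (and the trivial one in place of `G l`). -/
structure Shrinks {K : Type} [Field K] [Algebra ℂ K] {J : Type} [Fintype J] [DecidableEq J]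
    (X X' : NormalModel K) (G G' : J → Finset Kˣ) (l : J) (e : J → ℝ) : Prop where
  prime : ∀ Q, X'.IsPrimeDiv Q → X.IsPrimeDiv Q
  same : G' = Function.update G l {1}
  cls : ∃ E : DVal K → ℝ, X.RLinEq (fun Q => E Q + sys Q (G l))
      (fun Q => ∑ j ∈ Finset.univ.erase l, e j * sys Q (G j)) ∧
    (∀ Q, X'.IsPrimeDiv Q → E Q = 0) ∧ ∀ Q, X.IsPrimeDiv Q → ¬ X'.IsPrimeDiv Q → 0 < E Q

/-- A family of normal projective varieties `X v` with the same function field, with base point free
linear systems `G v j`, `j ∈ J`. The other data are used to control sequences of birational maps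
between them: `κ v` is a class which is not changed by the flops (it can be `0` or the canonical
class), `f v` is an integral linear form which is nonnegative on the effective classes, `rank v` is a
natural number. -/
structure ModelSystem (K : Type) [Field K] [Algebra ℂ K] (J : Type) [Fintype J] where
  V : Type
  X : V → NormalModel K
  G : V → J → Finset Kˣ
  bpf : ∀ v j, (X v).BPF (G v j)
  κ : V → J → ℝ
  f : V → J → ℤ
  f_nonneg : ∀ (v : V) (a : J → ℤ),
    (X v).REffective (fun Q => ∑ j, (a j : ℝ) * sys Q (G v j)) → 0 ≤ ∑ j, f v j * a j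
  rank : V → ℕ

namespace ModelSystem

variable {K : Type} [Field K] [Algebra ℂ K] {J : Type} [Fintype J] [DecidableEq J]

/-- The facet `i` of the cone of the `G v j` is crossed by a birational map (an isomorphism in
codimension one) to some `X v'`. -/
def Flops (S : ModelSystem K J) (v : S.V) (i : J) : Prop :=
  ∃ (v' : S.V) (c : J → ℤ), Crosses (S.X v) (S.X v') (S.G v) (S.G v') i c ∧
    S.κ v i = 0 ∧ S.κ v' = S.κ v ∧ (∀ j, j ≠ i → S.f v' j = S.f v j) ∧
    S.f v i + S.f v' i < ∑ j ∈ Finset.univ.erase i, S.f v j * c j ∧ S.rank v' ≤ S.rank v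

/-- The facet `l` corresponds to the contraction of divisors. -/
def Contracts (S : ModelSystem K J) (v : S.V) (l : J) : Prop :=
  ∃ (v' : S.V) (e : J → ℝ), Shrinks (S.X v) (S.X v') (S.G v) (S.G v') l e ∧
    (S.κ v' = fun j => if j = l then 0 else S.κ v j + S.κ v l * e j) ∧ S.rank v' < S.rank v

/-- All facets are of the following kinds: the linear system `G v j` is trivial; it moves on the
general fibres of the map given by the other ones; the facet is crossed by a flop; it corresponds
to the contraction of divisors; or (an alternative which is used only if `B`) `κ v j > 0`, all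
`κ v l ≥ 0`, and `G v j` moves on the general fibres of the map given by all nontrivial `G v l`
except any one of them. -/
def Complete (S : ModelSystem K J) (B : Prop) : Prop :=
  ∀ (v : S.V) (j : J), S.G v j = {1} ∨ Moves (S.G v) {j} j ∨ S.Flops v j ∨ S.Contracts v j ∨
    (B ∧ 0 < S.κ v j ∧ (∀ l, 0 ≤ S.κ v l) ∧
      ∀ l, l ≠ j → S.G v l = {1} ∨ Moves (S.G v) {j, l} j)

end ModelSystem

end Pool.Agent.LibGMC
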